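import Mathlib
import Pool.Agent.Helper11.Hom2

set_option autoImplicit false

/-!
# BPH-Hom: loops on `w + ε/w = f(x)` give homomorphisms of the function field to the loop ring
-/

namespace BPH

open Pool.Agent.Helper11 Polynomial

/-- the polynomial of the curve -/
noncomputable def crv (f : ℚ[X]) (ε : ℚ) : ℚ[X][X] := X ^ 2 + C (-f) * X + C (C ε)

lemma crv_monic (f : ℚ[X]) (ε : ℚ) : (crv f ε).Monic := by
  unfold crv
  monicity!

lemma crv_natDegree (f : ℚ[X]) (ε : ℚ) : (crv f ε).natDegree = 2 := by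
  unfold crv
  compute_degree!

theorem crv_irreducible {f : ℚ[X]} (hf : f.natDegree ≠ 0) {ε : ℚ} (hε : ε ≠ 0) :
    Irreducible (crv f ε) := by
  rw [(crv_monic f ε).irreducible_iff_roots_eq_zero_of_degree_le_three
    (by rw [crv_natDegree]) (by rw [crv_natDegree]; norm_num)]
  rw [Multiset.eq_zero_iff_forall_notMem]
  intro g hg
  have h1 : (crv f ε).IsRoot g := (mem_roots'.1 hg).2
  have h2 : g ^ 2 + (-f) * g + C ε = 0 := by
    have := h1
    unfold crv at this
    simpa [IsRoot, eval_add, eval_mul, eval_pow] using this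
  have h3 : g * (f - g) = C ε := by linear_combination -h2
  have hu : IsUnit (g * (f - g)) := by
    rw [h3]
    exact isUnit_C.2 (isUnit_iff_ne_zero.2 hε)
  have hg1 := natDegree_eq_zero_of_isUnit (isUnit_of_mul_isUnit_left hu)
  have hg2 := natDegree_eq_zero_of_isUnit (isUnit_of_mul_isUnit_right hu)
  apply hf
  have : f = g + (f - g) := by ring
  rw [this]
  have h4 := natDegree_add_le g (f - g)
  rw [hg1, hg2] at h4
  simpa using h4

lemma evp_crv {L : Type*} [Field L] [Algebra ℚ L] {x w : L} {f : ℚ[X]} {ε : ℚ} (hw : w ≠ 0)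
    (h : w + algebraMap ℚ L ε * w⁻¹ = aeval x f) : evp x w (crv f ε) = 0 := by
  unfold crv
  rw [map_add, map_add, map_mul, map_pow, evp_X, evp_C, evp_C, map_neg, ← h, aeval_C]
  field_simp
  ring

/-- Main existence result: for a field `K = ℚ(x, w)`, `w + ε/w = f(x)`, and loops `ξ`, `ω` with
`ω + ε/ω = f(ξ)` and `ξ t` transcendental for all `t`, there is a ring homomorphism from `K` to
the loop ring with `x ↦ ξ`, `w ↦ ω`. -/
theorem exists_hom {K : Type*} [Field K] [CharZero K] {x w : K} {f : ℚ[X]} (hf : f.natDegree ≠ 0)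
    {ε : ℚ} (hε : ε ≠ 0) (hx : Transcendental ℚ x) (hw : w ≠ 0)
    (h : w + algebraMap ℚ K ε * w⁻¹ = aeval x f) (hK : IntermediateField.adjoin ℚ {x, w} = ⊤)
    {ξ ω : ℝ → ℂ} (hξ : ξ ∈ LoopRing) (hω : ω ∈ LoopRing) (hξt : ∀ t, Transcendental ℚ (ξ t))
    (hω0 : ∀ t, ω t ≠ 0) (hωf : ∀ t, ω t + algebraMap ℚ ℂ ε * (ω t)⁻¹ = aeval (ξ t) f) :
    ∃ γ : K →+* LoopRing, (γ x : ℝ → ℂ) = ξ ∧ (γ w : ℝ → ℂ) = ω :=
  exists_hom2 (crv_irreducible hf hε) (by rw [crv_natDegree]; norm_num) hx (evp_crv hw h) hK hξ hω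
    hξt fun t => evp_crv (hω0 t) (hωf t)

end BPH
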