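import Pool.Agent.BPH.Int
import Pool.Agent.BPH.Hom
import Pool.Agent.RHE.Out
import Pool.Agent.RHE.Lin

set_option autoImplicit false

/-!
# BPH-Fam: the six families as instances of the analytic theorem
-/

namespace BPH

open Pool.Agent.Helper11 Pool.Agent.RHE

/-- the real double points of `w + ε/w = c ∏ (x - a i)^(e i) + κ` -/
def nodes {r : ℕ} (a : Fin (r + 1) → ℤ) (e : Fin (r + 1) → ℕ) (c κ ε : ℤ) : Set ℝ :=
  {β | (∀ i, β ≠ a i) ∧ (c * ∏ i, (β - a i) ^ e i + κ) ^ 2 = 4 * ε ∧ ∑ i, e i / (β - a i) = 0}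

section

variable {r : ℕ} (a : Fin (r + 1) → ℤ) (e : Fin (r + 1) → ℕ) (c κ ε : ℤ) (y : Fin r → ℝ)

/-- the coefficients with sum zero -/
noncomputable def zz (y : Fin r → ℝ) : Fin (r + 1) → ℝ := Fin.cons (-∑ i, y i) y

lemma sum_zz : ∑ i, zz y i = 0 := by
  unfold zz
  rw [Fin.sum_univ_succ]
  simp

lemma zz_ne {y : Fin r → ℝ} (hy : y ≠ 0) : zz y ≠ 0 := by
  intro h
  apply hy
  funext i
  have := congrFun h i.succ
  simpa [zz] using this

lemma zz_sum {M : Type*} [AddCommGroup M] [Module ℝ M] (f : Fin (r + 1) → M) :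
    ∑ i, zz y i • f i = ∑ i, y i • (f i.succ - f 0) := by
  unfold zz
  rw [Fin.sum_univ_succ]
  simp only [Fin.cons_zero, Fin.cons_succ, smul_sub, Finset.sum_sub_distrib, neg_smul,
    Finset.sum_smul]
  abel

/-- the data of project RHE with constant `c'` and `κ'` -/
noncomputable def dat (ha : Function.Injective a) (he : ∀ i, e i ≠ 0) (c' : ℂ) (hc : c' ≠ 0)
    (κ' : ℝ) (hκ : |κ'| ≤ 2) {y : Fin r → ℝ} (hy : y ≠ 0) : Dat where
  r := r + 1
  a := fun i => (a i : ℂ)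
  e := e
  c := c'
  κ := κ'
  z := zz y
  ha := fun i j h => ha (Int.cast_injective (α := ℂ) h)
  he := fun i => Nat.pos_of_ne_zero (he i)
  hc := hc
  hκ := hκ
  hz := sum_zz y
  hz0 := zz_ne hy

lemma regInt_const_one (ψ : ℝ → ℂ) : regInt (1 : ℝ → ℂ) ψ = 0 := by
  unfold regInt
  have : ∀ t, deriv (1 : ℝ → ℂ) t = 0 := fun t => by
    have : (1 : ℝ → ℂ) = fun _ => 1 := rfl
    rw [this, deriv_const]
  simp [this]

lemma regInt_inv_left {φ ψ : ℝ → ℂ} (h₁ : IsLoop φ) (h : IsLoop ψ) :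
    regInt φ⁻¹ ψ = - regInt φ ψ := by
  have h2 := regInt_mul_left h₁ h₁.inv h
  have h3 : φ * φ⁻¹ = 1 := by
    funext t
    simp only [Pi.mul_apply, Pi.inv_apply, Pi.one_apply]
    exact mul_inv_cancel₀ (h₁.ne t)
  rw [h3, regInt_const_one] at h2
  linarith

/-- the integral of the regulator form is the combination of regulators -/
theorem int_rho (ha : Function.Injective a) (he : ∀ i, e i ≠ 0) (c' : ℂ) (hc : c' ≠ 0)
    (κ' : ℝ) (hκ : |κ'| ≤ 2) {y : Fin r → ℝ} (hy : y ≠ 0) {ξ ω : ℝ → ℂ}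
    (hξ : ∀ i, IsLoop (fun t => ξ t - a i)) (hω : IsLoop ω) :
    ∫ t in (0 : ℝ)..(2 * Real.pi), (dat a e ha he c' hc κ' hκ hy).ρ ξ ω t =
      ∑ i, y i * regInt (fun t => (ξ t - a i.succ) / (ξ t - a 0)) ω := by
  have hd : ∀ i t, deriv (fun t => ξ t - a i) t = deriv ξ t := fun i t => deriv_sub_const _
  have h1 : ∀ t, (dat a e ha he c' hc κ' hκ hy).ρ ξ ω t = ∑ i, zz y i *
      (Real.log ‖ξ t - a i‖ * (deriv ω t / ω t).im -
        Real.log ‖ω t‖ * (deriv (fun t => ξ t - a i) t / (ξ t - a i)).im) := by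
    intro t
    unfold Dat.ρ Dat.Φ Dat.F
    change (∑ i, zz y i * Real.log ‖ξ t - (a i : ℂ)‖) * (deriv ω t / ω t).im -
      Real.log ‖ω t‖ * ((∑ i, (zz y i : ℂ) / (ξ t - (a i : ℂ))) * deriv ξ t).im = _
    rw [Finset.sum_mul, Finset.sum_mul, Complex.im_sum, Finset.mul_sum, ← Finset.sum_sub_distrib]
    refine Finset.sum_congr rfl fun i _ => ?_
    rw [hd]
    have : (zz y i : ℂ) / (ξ t - (a i : ℂ)) * deriv ξ t =
        (zz y i : ℂ) * (deriv ξ t / (ξ t - (a i : ℂ))) := by ring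
    rw [this, Complex.im_ofReal_mul]
    ring
  simp_rw [h1]
  rw [intervalIntegral.integral_finset_sum fun i _ => (((hξ i).intg hω _ _).const_mul _)]
  simp_rw [intervalIntegral.integral_const_mul]
  have h2 := zz_sum y (fun i => regInt (fun t => ξ t - a i) ω)
  simp only [smul_eq_mul] at h2
  refine Eq.trans ?_ (h2.trans ?_)
  · rfl
  · refine Finset.sum_congr rfl fun i _ => ?_
    congr 1
    have h3 : (fun t => (ξ t - a i.succ) / (ξ t - a 0)) =
        (fun t => ξ t - (a i.succ : ℂ)) * (fun t => ξ t - (a 0 : ℂ))⁻¹ := by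
      funext t
      simp [div_eq_mul_inv]
    rw [h3, regInt_mul_left (hξ _) (hξ _).inv hω, regInt_inv_left (hξ _) hω]
    ring

lemma regInt_I_mul (φ ψ : ℝ → ℂ) : regInt φ (fun t => Complex.I * ψ t) = regInt φ ψ := by
  unfold regInt
  refine intervalIntegral.integral_congr fun t _ => ?_
  have h1 : deriv (fun t => Complex.I * ψ t) t = Complex.I * deriv ψ t := deriv_const_mul_field _
  simp only [h1, norm_mul, Complex.norm_I, one_mul, mul_div_mul_left _ _ Complex.I_ne_zero]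

private lemma ne_of_transc {z : ℂ} (h : Transcendental ℚ z) (n : ℤ) : z ≠ n := by
  rintro rfl
  exact h (isAlgebraic_int (R := ℚ) n)

/-- the common part: a loop on the curve of the data gives loops and a non-zero regulator -/
private lemma exists_aux (ha : Function.Injective a) (he : ∀ i, e i ≠ 0) (c' : ℂ) (hc : c' ≠ 0)
    (κ' : ℝ) (hκ : |κ'| ≤ 2) {y : Fin r → ℝ} (hy : y ≠ 0)
    (hn : ∀ β : ℝ, (∀ i, β ≠ a i) → (c' * ∏ i, ((β : ℂ) - a i) ^ e i + κ') ^ 2 = 4 →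
      ∑ i, (e i : ℝ) / (β - a i) = 0 → ∑ i, y i * ((β - a i.succ)⁻¹ - (β - a 0)⁻¹) = 0) :
    ∃ ξ ω : ℝ → ℂ, ξ ∈ LoopRing ∧ ω ∈ LoopRing ∧ (∀ t, Transcendental ℚ (ξ t)) ∧ (∀ t, ω t ≠ 0) ∧
      (∀ t, ω t + (ω t)⁻¹ = c' * ∏ i, (ξ t - a i) ^ e i + κ') ∧
      ∑ i, y i * regInt (fun t => (ξ t - a i.succ) / (ξ t - a 0)) ω ≠ 0 := by
  set D := dat a e ha he c' hc κ' hκ hy with hD
  have hG : D.Good := by
    refine D.good_of_real (fun i => (a i : ℝ)) (fun i => by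
      change (a i : ℂ) = ((a i : ℝ) : ℂ)
      push_cast
      rfl) ?_
    intro β h1 h2 h3
    have h4 : ∀ i, β ≠ a i := by
      intro i hi
      apply h1
      rw [D.R_eval_eq_zero]
      refine ⟨i, ?_⟩
      rw [hi]
      change ((a i : ℝ) : ℂ) = (a i : ℂ)
      push_cast
      rfl
    have h5 : (c' * ∏ i, ((β : ℂ) - a i) ^ e i + κ') ^ 2 = 4 := by
      have := D.Δ_eval (β : ℂ)
      rw [h2, D.Q_eval, D.R_eval] at this
      exact (sub_eq_zero.1 this.symm)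
    have h6 := hn β h4 h5 h3
    have h7 := zz_sum y (fun i => (β - (a i : ℝ))⁻¹)
    simp only [smul_eq_mul] at h7
    have h8 : ∑ i, zz y i * (β - (a i : ℝ))⁻¹ = 0 := h7.trans h6
    change ∑ i, (zz y i : ℂ) / ((β : ℂ) - (a i : ℂ)) = 0
    have h9 : ∑ i, (zz y i : ℂ) / ((β : ℂ) - (a i : ℂ)) =
        ((∑ i, zz y i * (β - (a i : ℝ))⁻¹ : ℝ) : ℂ) := by
      push_cast
      exact Finset.sum_congr rfl fun i _ => by rw [div_eq_mul_inv]
    rw [h9, h8, Complex.ofReal_zero]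
  obtain ⟨ξ, ω, hl, ht, hI⟩ := D.an hG
  have hξ : ξ ∈ LoopRing := ⟨hl.cξ.of_le (by norm_num), hl.pξ⟩
  have hω : ω ∈ LoopRing := ⟨hl.cω.of_le (by norm_num), hl.pω⟩
  have hω0 : ∀ t, ω t ≠ 0 := fun t => (hl.pt t).w_ne
  refine ⟨ξ, ω, hξ, hω, ht, hω0, fun t => ?_, ?_⟩
  · rw [← (hl.pt t).Q_eq, D.Q_eval, D.R_eval]
    rfl
  · have h1 : ∀ i, IsLoop (fun t => ξ t - a i) := fun i =>
      ⟨hξ.1.sub contDiff_const, fun t => by rw [hl.pξ t], fun t => sub_ne_zero.2 (ne_of_transc (ht t) _)⟩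
    rw [← int_rho a e ha he c' hc κ' hκ hy h1 ⟨hω.1, hω.2, hω0⟩]
    exact hI

theorem exists_loops (ha : Function.Injective a) (he : ∀ i, e i ≠ 0) (hc : c ≠ 0) (hκ : Adm κ ε)
    {y : Fin r → ℝ} (hy : y ≠ 0)
    (hn : ∀ β ∈ nodes a e c κ ε, ∑ i, y i * ((β - a i.succ)⁻¹ - (β - a 0)⁻¹) = 0) :
    ∃ ξ ω : ℝ → ℂ, ξ ∈ LoopRing ∧ ω ∈ LoopRing ∧ (∀ t, Transcendental ℚ (ξ t)) ∧ (∀ t, ω t ≠ 0) ∧
      (∀ t, ω t + ε * (ω t)⁻¹ = c * ∏ i, (ξ t - a i) ^ e i + κ) ∧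
      ∑ i, y i * regInt (fun t => (ξ t - a i.succ) / (ξ t - a 0)) ω ≠ 0 := by
  rcases hκ with ⟨rfl, hκ⟩ | ⟨rfl, rfl⟩
  · obtain ⟨ξ, ω, h1, h2, h3, h4, h5, h6⟩ := exists_aux a e ha he (c : ℂ) (by exact_mod_cast hc)
      (κ : ℝ) (by exact_mod_cast hκ) hy (fun β hβ hd hs => by
        refine hn β ⟨hβ, ?_, hs⟩
        have : (((c * ∏ i, (β - a i) ^ e i + κ) ^ 2 : ℝ) : ℂ) = ((4 : ℝ) : ℂ) := by
          push_cast
          rw [← hd]
          push_cast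
          rfl
        rw [Complex.ofReal_inj] at this
        rw [this]
        norm_num)
    refine ⟨ξ, ω, h1, h2, h3, h4, fun t => ?_, h6⟩
    have := h5 t
    push_cast at this ⊢
    rw [one_mul]
    exact this
  · obtain ⟨ξ, ω, h1, h2, h3, h4, h5, h6⟩ := exists_aux a e ha he (-Complex.I * c)
      (mul_ne_zero (neg_ne_zero.2 Complex.I_ne_zero) (by exact_mod_cast hc))
      0 (by norm_num) hy (fun β hβ hd hs => by
        exfalso
        have h7 : (-Complex.I * c * ∏ i, ((β : ℂ) - a i) ^ e i + ((0 : ℝ) : ℂ)) ^ 2 =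
            ((-(c * ∏ i, (β - a i) ^ e i) ^ 2 : ℝ) : ℂ) := by
          push_cast
          linear_combination (c * ∏ i, ((β : ℂ) - a i) ^ e i) ^ 2 * Complex.I_sq
        rw [h7] at hd
        have h8 : (-(c * ∏ i, (β - a i) ^ e i) ^ 2 : ℝ) = 4 := by exact_mod_cast hd
        nlinarith [sq_nonneg ((c : ℝ) * ∏ i, (β - a i) ^ e i)])
    refine ⟨ξ, fun t => Complex.I * ω t, h1, ⟨contDiff_const.mul h2.1, fun t => by
      simp only
      rw [h2.2 t]⟩, h3, fun t => mul_ne_zero Complex.I_ne_zero (h4 t), fun t => ?_, ?_⟩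
    · have := h5 t
      have h0 := h4 t
      have hI : (Complex.I)⁻¹ = -Complex.I := Complex.inv_I
      rw [mul_inv, hI]
      push_cast at this ⊢
      linear_combination Complex.I * this - (c : ℂ) * (∏ i, (ξ t - a i) ^ e i) * Complex.I_sq
    · simp_rw [regInt_I_mul]
      exact h6

end

end BPH
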