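import Mathlib

set_option autoImplicit false

/-! Definitions used in the statement. -/

namespace BPH

open Polynomial

/-- The polynomial `Δ = (c ∏ (X - a i)^(e i) + κ)^2 - 4 ε`: the discriminant of the equation
`w + ε/w = c ∏ (x - a i)^(e i) + κ` for `w`. -/
noncomputable def disc {r : ℕ} (a : Fin (r + 1) → ℤ) (e : Fin (r + 1) → ℕ) (c κ ε : ℤ) : ℂ[X] :=
  (C (c : ℂ) * ∏ i, (X - C (a i : ℂ)) ^ e i + C (κ : ℂ)) ^ 2 - C (4 * (ε : ℂ))

/-- The genus of the curve `y² = Δ(x)`, for `Δ` of even degree: half the number of complex zeros of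
`Δ` of odd order, minus one. -/
noncomputable def genus (Δ : ℂ[X]) : ℕ := {β : ℂ | Odd (Δ.rootMultiplicity β)}.ncard / 2 - 1

end BPH
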