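import Pool.Agent.BPH.Main
import Pool.Agent.BPH.Defs

set_option autoImplicit false

/-!
# BPH-Gen: the genus
-/

namespace BPH

open Pool.Agent.Helper11 Pool.Agent.RHE Polynomial

section

variable {r : ℕ} {a : Fin (r + 1) → ℤ} {e : Fin (r + 1) → ℕ} {c κ ε : ℤ}

lemma deriv_pol' (β : ℂ) : (pol a e c κ ℂ).derivative.eval β =
    c * ∑ i, (∏ j ∈ Finset.univ.erase i, (β - a j) ^ e j) * (e i * (β - a i) ^ (e i - 1)) := by
  rw [pol, derivative_add, derivative_C, add_zero, derivative_C_mul, derivative_prod_finset,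
    eval_mul, eval_C, eval_finset_sum]
  congr 1
  refine Finset.sum_congr rfl fun i _ => ?_
  rw [derivative_X_sub_C_pow, eval_mul, eval_prod, eval_mul, eval_C, eval_pow, eval_sub, eval_X,
    eval_C]
  simp only [eval_pow, eval_sub, eval_X, eval_C]

lemma deriv_pol {β : ℂ} (h : ∀ i, β ≠ a i) (hs : ∑ i, (e i : ℂ) / (β - a i) = 0) :
    (pol a e c κ ℂ).derivative.eval β = 0 := by
  rw [deriv_pol']
  have h2 : ∑ i, (∏ j ∈ Finset.univ.erase i, (β - a j) ^ e j) * (e i * (β - a i) ^ (e i - 1)) =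
      (∏ i, (β - a i) ^ e i) * ∑ i, e i / (β - a i) := by
    rw [Finset.mul_sum]
    refine Finset.sum_congr rfl fun i _ => ?_
    have h1 : β - a i ≠ 0 := sub_ne_zero.2 (h i)
    rw [← Finset.mul_prod_erase _ _ (Finset.mem_univ i)]
    rcases Nat.eq_zero_or_pos (e i) with h0 | h0
    · simp [h0]
    · obtain ⟨m, hm⟩ := Nat.exists_eq_succ_of_ne_zero h0.ne'
      rw [hm]
      simp only [Nat.succ_eq_add_one, Nat.add_sub_cancel, pow_succ]
      field_simp
  rw [h2, hs, mul_zero, mul_zero]

lemma two_le_mult (hc : c ≠ 0) (he : ∀ i, e i ≠ 0) {β : ℂ}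
    (h : (pol a e c κ ℂ).eval β ^ 2 = 4 * ε) (h' : (pol a e c κ ℂ).derivative.eval β = 0) :
    2 ≤ (disc a e c κ ε).rootMultiplicity β := by
  refine (one_lt_rootMultiplicity_iff_isRoot (disc_ne hc he _)).2 ⟨?_, ?_⟩
  · rw [IsRoot.def, eval_sub, eval_pow, eval_C]
    exact sub_eq_zero.2 h
  · rw [IsRoot.def, derivative_sub, derivative_C, sub_zero, derivative_sq, eval_mul]
    change _ * (pol a e c κ ℂ).derivative.eval β = 0
    rw [h', mul_zero]

lemma le_mult (hc : c ≠ 0) (he : ∀ i, e i ≠ 0) (hκ : κ ^ 2 = 4 * ε) (i : Fin (r + 1)) :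
    e i ≤ (disc a e c κ ε).rootMultiplicity (a i : ℂ) := by
  refine (le_rootMultiplicity_iff (disc_ne hc he _)).2 ?_
  have h1 : disc a e c κ ε = (∏ i, (X - C (a i : ℂ)) ^ e i) *
      (C (c : ℂ) * (C (c : ℂ) * ∏ i, (X - C (a i : ℂ)) ^ e i + 2 * C (κ : ℂ))) := by
    have h2 : (C (4 * (ε : ℂ)) : ℂ[X]) = C (κ : ℂ) ^ 2 := by
      rw [← C_pow]
      congr 1
      exact_mod_cast hκ.symm
    rw [disc, h2]
    ring
  change _ ∣ disc a e c κ ε
  rw [h1]
  exact (Finset.dvd_prod_of_mem (fun i => (X - C (a i : ℂ)) ^ e i) (Finset.mem_univ i)).mul_right _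

/-- the number of zeros of odd order -/
theorem odd_le (ha : Function.Injective a) (he : ∀ i, e i ≠ 0) (hc : c ≠ 0) (hκ : Adm κ ε) :
    {β : ℂ | Odd ((disc a e c κ ε).rootMultiplicity β)}.ncard + 2 * (nodes a e c κ ε).ncard ≤
      2 * (r + 1 + ∑ i, (e i - 1) / (if |κ| = 2 then 2 else 1)) := by
  classical
  set Δ : ℂ[X] := disc a e c κ ε with hΔ
  have hΔ0 : Δ ≠ 0 := disc_ne hc he _
  have hsum : ∑ β ∈ Δ.roots.toFinset, Δ.rootMultiplicity β = 2 * ∑ i, e i := by
    have h1 := Multiset.toFinset_sum_count_eq Δ.roots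
    simp_rw [count_roots] at h1
    rw [h1, ← (IsAlgClosed.splits Δ).natDegree_eq_card_roots]
    exact disc_natDegree hc _
  set A : Finset ℂ := (nodes_finite (κ := κ) (ε := ε) (a := a) hc he).toFinset.image
    (fun β : ℝ => (β : ℂ)) with hA
  have hAcard : A.card = (nodes a e c κ ε).ncard := by
    rw [hA, Finset.card_image_of_injective _ Complex.ofReal_injective,
      Set.ncard_eq_toFinset_card _ (nodes_finite hc he)]
  have hnode : ∀ β ∈ A, 2 ≤ Δ.rootMultiplicity β := by
    intro β hβ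
    rw [hA, Finset.mem_image] at hβ
    obtain ⟨b, hb, rfl⟩ := hβ
    rw [Set.Finite.mem_toFinset] at hb
    obtain ⟨h1, h2, h3⟩ := hb
    refine two_le_mult hc he ?_ (deriv_pol (fun i h => h1 i (by exact_mod_cast h)) ?_)
    · rw [pol_eval]
      exact_mod_cast h2
    · exact_mod_cast congrArg (fun t : ℝ => (t : ℂ)) h3
  have hAr : A ⊆ Δ.roots.toFinset := by
    intro β hβ
    rw [Multiset.mem_toFinset, mem_roots hΔ0, ← rootMultiplicity_pos hΔ0]
    exact lt_of_lt_of_le (by norm_num) (hnode β hβ)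
  -- the number of zeros of odd order
  set O : Finset ℂ := Δ.roots.toFinset.filter fun β => Odd (Δ.rootMultiplicity β) with hO
  have hOcard : {β : ℂ | Odd (Δ.rootMultiplicity β)}.ncard = O.card := by
    rw [← Set.ncard_coe_finset]
    congr 1
    ext β
    rw [hO, Finset.coe_filter, Set.mem_setOf_eq, Set.mem_setOf_eq, Multiset.mem_toFinset,
      mem_roots hΔ0, ← rootMultiplicity_pos hΔ0]
    exact ⟨fun h => ⟨h.pos, h⟩, fun h => h.2⟩
  have hOsum : O.card = ∑ β ∈ Δ.roots.toFinset, if Odd (Δ.rootMultiplicity β) then 1 else 0 := by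
    rw [hO, Finset.card_filter]
  have hAsum : A.card = ∑ β ∈ Δ.roots.toFinset, if β ∈ A then 1 else 0 := by
    rw [← Finset.card_filter, Finset.filter_mem_eq_inter, Finset.inter_eq_right.2 hAr]
  have he1 : ∑ i, e i = (r + 1) + ∑ i, (e i - 1) := by
    have h1 : ∑ i, e i = ∑ i : Fin (r + 1), (1 + (e i - 1)) :=
      Finset.sum_congr rfl fun i _ => by have := he i; omega
    rw [h1, Finset.sum_add_distrib]
    simp
  by_cases hk : |κ| = 2
  · -- the zeros of `R` are multiple
    have hε : ε = 1 := by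
      rcases hκ with ⟨h, _⟩ | ⟨_, h⟩
      · exact h
      · rw [h] at hk
        norm_num at hk
    have h5 : κ ^ 2 = 4 * ε := by
      rw [← sq_abs, hk, hε]
      norm_num
    have hinj : Function.Injective fun i => (a i : ℂ) := fun i j h =>
      ha (Int.cast_injective (α := ℂ) h)
    have hBr : ∀ i, (a i : ℂ) ∈ Δ.roots.toFinset := by
      intro i
      rw [Multiset.mem_toFinset, mem_roots hΔ0, ← rootMultiplicity_pos hΔ0]
      exact lt_of_lt_of_le (Nat.pos_of_ne_zero (he i)) (le_mult hc he h5 i)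
    have hBA : ∀ i, (a i : ℂ) ∉ A := by
      intro i hi
      rw [hA, Finset.mem_image] at hi
      obtain ⟨b, hb, h⟩ := hi
      rw [Set.Finite.mem_toFinset] at hb
      exact hb.1 i (by exact_mod_cast h)
    have hBsum : ∑ i, (e i / 2) = ∑ β ∈ Δ.roots.toFinset,
        ∑ i, if β = a i then e i / 2 else 0 := by
      rw [Finset.sum_comm]
      refine Finset.sum_congr rfl fun i _ => ?_
      rw [Finset.sum_ite_eq' Δ.roots.toFinset (a i : ℂ) fun _ => e i / 2, if_pos (hBr i)]
    have hle : O.card + 2 * A.card + 2 * ∑ i, (e i / 2) ≤ 2 * ∑ i, e i := by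
      rw [← hsum, hOsum, hAsum, hBsum, Finset.mul_sum, Finset.mul_sum, ← Finset.sum_add_distrib,
        ← Finset.sum_add_distrib]
      refine Finset.sum_le_sum fun β hβ => ?_
      have hpos : 0 < Δ.rootMultiplicity β := by
        rw [rootMultiplicity_pos hΔ0]
        exact (mem_roots hΔ0).1 (Multiset.mem_toFinset.1 hβ)
      by_cases hb : ∃ i, β = a i
      · obtain ⟨i, rfl⟩ := hb
        have h6 : (∑ j, if (a i : ℂ) = a j then e j / 2 else 0) = e i / 2 := by
          rw [Finset.sum_eq_single i]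
          · rw [if_pos rfl]
          · intro j _ hj
            rw [if_neg fun h => hj (hinj h).symm]
          · intro h
            exact absurd (Finset.mem_univ i) h
        rw [h6, if_neg (hBA i)]
        have h7 := le_mult (a := a) hc he h5 i
        rw [← hΔ] at h7
        split_ifs with h8
        · obtain ⟨m, hm⟩ := h8
          omega
        · rw [Nat.not_odd_iff_even] at h8
          obtain ⟨m, hm⟩ := h8
          omega
      · have h6 : (∑ j, if β = a j then e j / 2 else 0) = 0 :=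
          Finset.sum_eq_zero fun j _ => if_neg fun h => hb ⟨j, h⟩
        rw [h6]
        by_cases h2 : β ∈ A
        · have h3 := hnode β h2
          rw [if_pos h2]
          split_ifs with h8
          · obtain ⟨m, hm⟩ := h8
            omega
          · omega
        · rw [if_neg h2]
          split_ifs <;> omega
    have h9 : ∑ i, e i = (r + 1) + ∑ i, (e i - 1) / 2 + ∑ i, (e i / 2) := by
      have h1 : ∑ i, e i = ∑ i : Fin (r + 1), (1 + (e i - 1) / 2 + e i / 2) :=
        Finset.sum_congr rfl fun i _ => by have := he i; omega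
      rw [h1, Finset.sum_add_distrib, Finset.sum_add_distrib]
      simp
    rw [hOcard, ← hAcard, if_pos hk]
    omega
  · have hle : O.card + 2 * A.card ≤ 2 * ∑ i, e i := by
      rw [← hsum, hOsum, hAsum, Finset.mul_sum, ← Finset.sum_add_distrib]
      refine Finset.sum_le_sum fun β hβ => ?_
      have hpos : 0 < Δ.rootMultiplicity β := by
        rw [rootMultiplicity_pos hΔ0]
        exact (mem_roots hΔ0).1 (Multiset.mem_toFinset.1 hβ)
      by_cases h2 : β ∈ A
      · have h3 := hnode β h2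
        rw [if_pos h2]
        split_ifs with h8
        · obtain ⟨m, hm⟩ := h8
          omega
        · omega
      · rw [if_neg h2]
        split_ifs <;> omega
    rw [hOcard, ← hAcard, if_neg hk]
    simp only [Nat.div_one]
    omega

theorem genus_le (ha : Function.Injective a) (he : ∀ i, e i ≠ 0) (hc : c ≠ 0) (hκ : Adm κ ε)
    {d : ℕ} (hd : r ≤ d + (nodes a e c κ ε).ncard) :
    genus (disc a e c κ ε) ≤ d + ∑ i, (e i - 1) / (if |κ| = 2 then 2 else 1) := by
  have h := odd_le ha he hc hκ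
  unfold genus
  omega

end

end BPH
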