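import Mathlib
import Pool.Agent.Helper11.Unram
import Pool.Agent.Helper12.RQ.Unr

set_option autoImplicit false

/-!
# BPH-Int: the symbols `{(x - a i)/(x - a j), w}` on `w + ε/w = c ∏ (x - a i)^(e i) + κ` are integral
-/

namespace BPH

open Pool.Agent.Helper11

/-- the parameters: `w^2 - κ w + ε` has roots of unity as roots -/
def Adm (κ ε : ℤ) : Prop := (ε = 1 ∧ |κ| ≤ 2) ∨ (ε = -1 ∧ κ = 0)

variable {K : Type*} [Field K]

private lemma val_int (O : ValuationSubring K) (n : ℤ) : O.valuation (n : K) ≤ 1 := by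
  rw [O.valuation_le_one_iff]
  exact intCast_mem O n

private lemma val_pow_le (O : ValuationSubring K) {x : K} (hx : O.valuation x ≤ 1) (n : ℕ) :
    O.valuation (x ^ n) ≤ 1 := by
  rw [map_pow]; exact pow_le_one' hx n

/-- if `w` is not a unit then `w + ε/w` has a pole -/
private lemma one_lt_val (O : ValuationSubring K) {w : K} (hw0 : w ≠ 0) {ε : ℤ} (hε : ε = 1 ∨ ε = -1)
    (hw : O.valuation w ≠ 1) : 1 < O.valuation (w + ε * w⁻¹) := by
  have hva : O.valuation w ≠ 0 := (Valuation.ne_zero_iff _).2 hw0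
  have hεv : O.valuation ((ε : K) * w⁻¹) = O.valuation w⁻¹ := by
    rw [map_mul]
    rcases hε with rfl | rfl
    · simp
    · push_cast
      rw [Valuation.map_neg, map_one, one_mul]
  rcases lt_or_gt_of_ne hw with h | h
  · have h1 : 1 < O.valuation w⁻¹ := by
      rw [map_inv₀]
      exact (one_lt_inv₀ (zero_lt_iff.2 hva)).2 h
    have h2 : O.valuation (w + ε * w⁻¹) = O.valuation w⁻¹ := by
      rw [Valuation.map_add_eq_of_lt_right _ (by rw [hεv]; exact h.trans h1), hεv]
    rw [h2]
    exact h1
  · have h1 : O.valuation w⁻¹ < 1 := by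
      rw [map_inv₀]
      exact inv_lt_one_of_one_lt₀ h
    have h2 : O.valuation (w + ε * w⁻¹) = O.valuation w :=
      Valuation.map_add_eq_of_lt_left _ (by rw [hεv]; exact h1.trans h)
    rw [h2]
    exact h

/-- `w^2 - κ w + ε` in the maximal ideal gives `w^12 - 1` in the maximal ideal -/
lemma pow_twelve (O : ValuationSubring K) {κ ε : ℤ} (hκ : Adm κ ε) {w : K}
    (hw : O.valuation w = 1) (h : O.valuation (w ^ 2 - κ * w + ε) < 1) :
    O.valuation (w ^ 12 - 1) < 1 := by
  have hwl : O.valuation w ≤ 1 := hw.le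
  have key : ∀ (f g : K), w ^ 12 - 1 = f * g → O.valuation f < 1 → O.valuation g ≤ 1 →
      O.valuation (w ^ 12 - 1) < 1 := by
    intro f g hfg hf hg
    rw [hfg, map_mul]
    exact mul_lt_one_of_lt_of_le hf hg
  have hmem : w ∈ O := (O.valuation_le_one_iff w).1 hwl
  rcases hκ with ⟨rfl, hκ⟩ | ⟨rfl, rfl⟩
  · have hκ' : κ = -2 ∨ κ = -1 ∨ κ = 0 ∨ κ = 1 ∨ κ = 2 := by
      rw [abs_le] at hκ
      omega
    rcases hκ' with rfl | rfl | rfl | rfl | rfl
    · have h1 : O.valuation (w + 1) < 1 := by
        have : w ^ 2 - ((-2 : ℤ) : K) * w + ((1 : ℤ) : K) = (w + 1) * (w + 1) := by push_cast; ring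
        rw [this, map_mul] at h
        by_contra hc
        push Not at hc
        exact absurd h (not_lt.2 (one_le_mul hc hc))
      refine key (w + 1) ((w - 1) * (w ^ 2 + w + 1) * (w ^ 2 - w + 1) * (w ^ 6 + 1)) (by ring) h1 ?_
      rw [O.valuation_le_one_iff]
      exact mul_mem (mul_mem (mul_mem (sub_mem hmem (one_mem _))
        (add_mem (add_mem (pow_mem hmem _) hmem) (one_mem _)))
        (add_mem (sub_mem (pow_mem hmem _) hmem) (one_mem _))) (add_mem (pow_mem hmem _) (one_mem _))
    · refine key (w ^ 2 - ((-1 : ℤ) : K) * w + ((1 : ℤ) : K)) ((w - 1) * (w ^ 3 + 1) * (w ^ 6 + 1))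
        (by push_cast; ring) h ?_
      rw [O.valuation_le_one_iff]
      exact mul_mem (mul_mem (sub_mem hmem (one_mem _)) (add_mem (pow_mem hmem _) (one_mem _)))
        (add_mem (pow_mem hmem _) (one_mem _))
    · refine key (w ^ 2 - ((0 : ℤ) : K) * w + ((1 : ℤ) : K)) ((w ^ 2 - 1) * (w ^ 8 + w ^ 4 + 1))
        (by push_cast; ring) h ?_
      rw [O.valuation_le_one_iff]
      exact mul_mem (sub_mem (pow_mem hmem _) (one_mem _))
        (add_mem (add_mem (pow_mem hmem _) (pow_mem hmem _)) (one_mem _))
    · refine key (w ^ 2 - ((1 : ℤ) : K) * w + ((1 : ℤ) : K)) ((w + 1) * (w ^ 3 - 1) * (w ^ 6 + 1))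
        (by push_cast; ring) h ?_
      rw [O.valuation_le_one_iff]
      exact mul_mem (mul_mem (add_mem hmem (one_mem _)) (sub_mem (pow_mem hmem _) (one_mem _)))
        (add_mem (pow_mem hmem _) (one_mem _))
    · have h1 : O.valuation (w - 1) < 1 := by
        have : w ^ 2 - ((2 : ℤ) : K) * w + ((1 : ℤ) : K) = (w - 1) * (w - 1) := by push_cast; ring
        rw [this, map_mul] at h
        by_contra hc
        push Not at hc
        exact absurd h (not_lt.2 (one_le_mul hc hc))
      refine key (w - 1) ((w + 1) * (w ^ 2 + w + 1) * (w ^ 2 - w + 1) * (w ^ 6 + 1)) (by ring) h1 ?_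
      rw [O.valuation_le_one_iff]
      exact mul_mem (mul_mem (mul_mem (add_mem hmem (one_mem _))
        (add_mem (add_mem (pow_mem hmem _) hmem) (one_mem _)))
        (add_mem (sub_mem (pow_mem hmem _) hmem) (one_mem _))) (add_mem (pow_mem hmem _) (one_mem _))
  · refine key (w ^ 2 - ((0 : ℤ) : K) * w + ((-1 : ℤ) : K)) ((w ^ 2 + 1) * (w ^ 8 + w ^ 4 + 1))
      (by push_cast; ring) h ?_
    rw [O.valuation_le_one_iff]
    exact mul_mem (add_mem (pow_mem hmem _) (one_mem _))
      (add_mem (add_mem (pow_mem hmem _) (pow_mem hmem _)) (one_mem _))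

/-- the symbol `{(x - a i)/(x - a j), w}` is integral -/
theorem sym_integral {r : ℕ} (a : Fin r → ℤ) (e : Fin r → ℕ) (he : ∀ i, e i ≠ 0) (c κ ε : ℤ)
    (hκ : Adm κ ε) (x : K) (w : Kˣ) (hx : ∀ i, x ≠ a i)
    (h : (w : K) + ε * (w : K)⁻¹ = c * ∏ i, (x - a i) ^ e i + κ) (i j : Fin r) (u : Kˣ)
    (hu : (u : K) * (x - a j) = x - a i) : sym u w ∈ integralPart K := by
  rw [mem_integralPart]
  intro O hO
  have hε : ε = 1 ∨ ε = -1 := by
    rcases hκ with ⟨h, _⟩ | ⟨h, _⟩
    · exact Or.inl h
    · exact Or.inr h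
  have hxi : ∀ l, x - (a l : K) ≠ 0 := fun l => sub_ne_zero.2 (hx l)
  have hu' : (u : K) = (x - a i) / (x - a j) := by
    rw [eq_div_iff (hxi j)]; exact hu
  by_cases hw : O.valuation (w : K) = 1
  · by_cases hu1 : O.valuation (u : K) = 1
    · exact sym_mem_unr O hu1 hw
    · -- `x` is integral and one of the factors is in the maximal ideal
      have hxO : O.valuation x ≤ 1 := by
        by_contra hc
        push Not at hc
        apply hu1
        have h1 : ∀ l, O.valuation (x - a l) = O.valuation x := fun l =>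
          Valuation.map_sub_eq_of_lt_left _ ((val_int O (a l)).trans_lt hc)
        rw [hu', map_div₀, h1, h1, div_self]
        exact (Valuation.ne_zero_iff _).2 (by
          rintro rfl
          rw [map_zero] at hc
          exact absurd hc (not_lt.2 zero_le_one))
      have hle : ∀ l, O.valuation (x - a l) ≤ 1 := fun l =>
        (Valuation.map_sub _ _ _).trans (max_le hxO (val_int O _))
      have hex : ∃ l, O.valuation (x - a l) < 1 := by
        by_contra hc
        push Not at hc
        apply hu1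
        rw [hu', map_div₀, le_antisymm (hle i) (hc i), le_antisymm (hle j) (hc j), div_one]
      obtain ⟨l, hl⟩ := hex
      have hR : O.valuation ((c : K) * ∏ i, (x - a i) ^ e i) < 1 := by
        rw [map_mul, map_prod]
        have h0 : ∏ i, O.valuation ((x - a i) ^ e i) < 1 := by
          rw [← Finset.mul_prod_erase _ _ (Finset.mem_univ l)]
          refine mul_lt_one_of_lt_of_le ?_ (Finset.prod_le_one' fun k _ => ?_)
          · rw [map_pow]
            exact pow_lt_one₀ zero_le hl (he l)
          · exact val_pow_le O (hle k) _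
        exact (mul_le_of_le_one_left' (val_int O c)).trans_lt h0
      have hP : O.valuation ((w : K) ^ 2 - κ * w + ε) < 1 := by
        have e1 : (w : K) ^ 2 - κ * w + ε = w * ((c : K) * ∏ i, (x - a i) ^ e i) := by
          have h0 : ((c : K) * ∏ i, (x - a i) ^ e i) = (w : K) + ε * (w : K)⁻¹ - κ := by
            rw [h]; ring
          rw [h0]
          have := w.ne_zero
          field_simp
          ring
        rw [e1, map_mul, hw, one_mul]
        exact hR
      have h12 := pow_twelve O hκ hw hP
      have h5 := sym_mem_of_sub_one_right O (z := u) (y := w ^ 12) (by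
        rw [Units.val_pow_eq_pow_val]; exact h12)
      rw [sym_pow_right] at h5
      have h6 := (unr O).smul_mem ((12 : ℕ) : ℚ)⁻¹ h5
      rwa [smul_smul, inv_mul_cancel₀ (by norm_num), one_smul] at h6
  · -- `x` has a pole
    have h1 := one_lt_val O w.ne_zero hε hw
    rw [h] at h1
    have hxO : 1 < O.valuation x := by
      by_contra hc
      push Not at hc
      have hle : ∀ l, O.valuation (x - a l) ≤ 1 := fun l =>
        (Valuation.map_sub _ _ _).trans (max_le hc (val_int O _))
      refine absurd h1 (not_lt.2 ?_)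
      refine (Valuation.map_add _ _ _).trans (max_le ?_ (val_int O _))
      rw [map_mul, map_prod]
      exact mul_le_one' (val_int O c) (Finset.prod_le_one' fun k _ => val_pow_le O (hle k) _)
    refine sym_mem_of_sub_one_left O ?_
    have e1 : (u : K) - 1 = ((a j - a i : ℤ) : K) / (x - a j) := by
      rw [hu']
      field_simp [hxi j]
      push_cast
      ring
    rw [e1, map_div₀]
    have h2 : O.valuation (x - a j) = O.valuation x :=
      Valuation.map_sub_eq_of_lt_left _ ((val_int O (a j)).trans_lt hxO)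
    rw [h2]
    exact (div_lt_one₀ (zero_lt_one.trans hxO)).2 ((val_int O _).trans_lt hxO)

end BPH
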