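import Pool.Agent.BPH.Fam

set_option autoImplicit false

/-!
# BPH-Main: the rank theorem for `w + ε/w = c ∏ (x - a i)^(e i) + κ`
-/

namespace BPH

open Pool.Agent.Helper11 Pool.Agent.RHE Polynomial

section

variable {r : ℕ} (a : Fin (r + 1) → ℤ) (e : Fin (r + 1) → ℕ) (c κ ε : ℤ)

/-- the right side of the equation as a polynomial -/
noncomputable def pol (F : Type*) [Field F] : F[X] :=
  C (c : F) * ∏ i, (X - C (a i : F)) ^ e i + C (κ : F)

variable {a e c κ ε}

lemma pol_aeval {F L : Type*} [Field F] [Field L] [Algebra F L] (x : L) :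
    aeval x (pol a e c κ F) = c * ∏ i, (x - a i) ^ e i + κ := by
  simp [pol, map_prod]

lemma pol_eval {F : Type*} [Field F] (x : F) :
    (pol a e c κ F).eval x = c * ∏ i, (x - a i) ^ e i + κ := by
  simp [pol, eval_prod]

lemma pol_natDegree {F : Type*} [Field F] [CharZero F] (hc : c ≠ 0) :
    (pol a e c κ F).natDegree = ∑ i, e i := by
  have hc' : (c : F) ≠ 0 := by exact_mod_cast hc
  rw [pol, natDegree_add_C, natDegree_C_mul hc',
    natDegree_prod_of_monic _ _ fun i _ => (monic_X_sub_C _).pow _]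
  refine Finset.sum_congr rfl fun i _ => ?_
  rw [(monic_X_sub_C _).natDegree_pow, natDegree_X_sub_C, mul_one]

lemma pol_natDegree_ne {F : Type*} [Field F] [CharZero F] (hc : c ≠ 0) (he : ∀ i, e i ≠ 0) :
    (pol a e c κ F).natDegree ≠ 0 := by
  rw [pol_natDegree hc]
  have := Finset.single_le_sum (f := e) (fun i _ => Nat.zero_le _) (Finset.mem_univ 0)
  have := he 0
  omega

lemma disc_natDegree {F : Type*} [Field F] [CharZero F] (hc : c ≠ 0) (b : F) :
    ((pol a e c κ F) ^ 2 - C b).natDegree = 2 * ∑ i, e i := by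
  rw [natDegree_sub_C, natDegree_pow, pol_natDegree hc]

lemma disc_ne {F : Type*} [Field F] [CharZero F] (hc : c ≠ 0) (he : ∀ i, e i ≠ 0) (b : F) :
    (pol a e c κ F) ^ 2 - C b ≠ 0 := by
  intro h
  have h1 := disc_natDegree (a := a) (e := e) (κ := κ) hc b
  rw [h, natDegree_zero] at h1
  have h2 := pol_natDegree_ne (a := a) (κ := κ) (F := F) hc he
  rw [pol_natDegree hc] at h2
  omega

lemma nodes_finite (hc : c ≠ 0) (he : ∀ i, e i ≠ 0) : (nodes a e c κ ε).Finite := by
  refine (((pol a e c κ ℝ) ^ 2 - C (4 * (ε : ℝ))).roots.toFinset.finite_toSet).subset ?_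
  rintro β ⟨_, h, _⟩
  rw [Finset.mem_coe, Multiset.mem_toFinset, mem_roots (disc_ne hc he _), IsRoot.def, eval_sub,
    eval_pow, pol_eval, eval_C, h, sub_self]

/-- the rank theorem -/
theorem rank_thm (ha : Function.Injective a) (he : ∀ i, e i ≠ 0) (hc : c ≠ 0) (hκ : Adm κ ε)
    {K : Type*} [Field K] [CharZero K] {x w : K} (hx : Transcendental ℚ x)
    (hK : IntermediateField.adjoin ℚ {x, w} = ⊤)
    (h : w + ε * w⁻¹ = c * ∏ i, (x - a i) ^ e i + κ) :
    ∃ (u : Fin r → Kˣ) (v : Kˣ), (v : K) = w ∧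
      (∀ i, (u i : K) = (x - a i.succ) / (x - a 0)) ∧ (∀ i, sym (u i) v ∈ integralPart K) ∧
      ∃ (n : ℕ) (R : Fin n → (K2Q K →ₗ[ℚ] ℝ)),
        (∀ j, ∃ γ : K →+* LoopRing, ∀ f g : Kˣ,
          R j (sym f g) = regInt (γ (f : K) : ℝ → ℂ) (γ (g : K) : ℝ → ℂ)) ∧
        r ≤ Module.finrank ℝ (Submodule.span ℝ (Set.range fun (i : Fin r) (j : Fin n) =>
          R j (sym (u i) v))) + (nodes a e c κ ε).ncard := by
  have hxa : ∀ i, x ≠ a i := by
    rintro i rfl
    exact hx (isAlgebraic_int (R := ℚ) (a i))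
  have hxs : ∀ i, x - a i ≠ 0 := fun i => sub_ne_zero.2 (hxa i)
  have hεq : (ε : ℚ) ≠ 0 := by
    rcases hκ with ⟨rfl, _⟩ | ⟨rfl, _⟩ <;> norm_num
  have hw0 : w ≠ 0 := by
    rintro rfl
    rw [inv_zero, mul_zero, add_zero, ← pol_aeval (F := ℚ)] at h
    have h1 := (transcendental_iff.1 hx) _ h.symm
    exact pol_natDegree_ne (a := a) (κ := κ) (F := ℚ) hc he (by rw [h1, natDegree_zero])
  have hh : w + algebraMap ℚ K (ε : ℚ) * w⁻¹ = aeval x (pol a e c κ ℚ) := by
    rw [pol_aeval, map_intCast]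
    exact h
  set u : Fin r → Kˣ := fun i =>
    Units.mk0 ((x - a i.succ) / (x - a 0)) (div_ne_zero (hxs _) (hxs _)) with hu
  set v : Kˣ := Units.mk0 w hw0 with hv
  have hd := Set.ncard_eq_toFinset_card _ (nodes_finite (κ := κ) (ε := ε) (a := a) hc he)
  set S := (nodes_finite (κ := κ) (ε := ε) (a := a) hc he).toFinset with hS
  let N : Fin S.card → ((Fin r → ℝ) →ₗ[ℝ] ℝ) := fun k =>
    ∑ i, (((S.equivFin.symm k : ℝ) - a i.succ)⁻¹ - ((S.equivFin.symm k : ℝ) - a 0)⁻¹) •
      LinearMap.proj i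
  obtain ⟨n, γ, hγ⟩ := exists_finite_family (Γ := K →+* LoopRing)
    (fun γ i => regInt (γ (u i : K) : ℝ → ℂ) (γ (v : K) : ℝ → ℂ)) N (fun y hy hN => by
      have hn : ∀ β ∈ nodes a e c κ ε, ∑ i, y i * ((β - a i.succ)⁻¹ - (β - a 0)⁻¹) = 0 := by
        intro β hβ
        have hβS : β ∈ S := by rw [hS, Set.Finite.mem_toFinset]; exact hβ
        have h1 := hN (S.equivFin ⟨β, hβS⟩)
        simp only [N, Equiv.symm_apply_apply, LinearMap.sum_apply, LinearMap.smul_apply,
          LinearMap.proj_apply, smul_eq_mul] at h1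
        rw [← h1]
        exact Finset.sum_congr rfl fun i _ => mul_comm _ _
      obtain ⟨ξ, ω, hξ, hω, ht, hω0, hωf, hI⟩ := exists_loops a e c κ ε ha he hc hκ hy hn
      obtain ⟨γ, hγx, hγw⟩ := exists_hom (ε := (ε : ℚ)) (f := pol a e c κ ℚ)
        (pol_natDegree_ne hc he) hεq hx hw0 hh hK hξ hω ht hω0 (fun t => by
          rw [pol_aeval, map_intCast]
          exact hωf t)
      refine ⟨γ, ?_⟩
      have h2 : ∀ i, (γ (u i : K) : ℝ → ℂ) = fun t => (ξ t - a i.succ) / (ξ t - a 0) := by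
        intro i
        have h3 : γ (u i : K) * γ (x - a 0) = γ (x - a i.succ) := by
          rw [← map_mul, hu]
          simp only [Units.val_mk0]
          rw [div_mul_cancel₀ _ (hxs 0)]
        funext t
        have h4 := congrFun (congrArg Subtype.val h3) t
        have h5 : ∀ i, (γ (x - (a i : K)) : ℝ → ℂ) t = ξ t - a i := by
          intro i
          rw [map_sub, map_intCast, AddSubgroupClass.coe_sub, hγx]
          rfl
        rw [Subring.coe_mul, Pi.mul_apply, h5, h5] at h4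
        rw [← h4, mul_div_cancel_right₀]
        intro h6
        exact ht t (by rw [sub_eq_zero.1 h6]; exact isAlgebraic_int (R := ℚ) (a 0))
      have h3 : (γ (v : K) : ℝ → ℂ) = ω := hγw
      simp only [h2, h3]
      exact hI)
  choose R hR using fun j => exists_reg (γ j)
  refine ⟨u, v, rfl, fun i => rfl, fun i => ?_, n, R, fun j => ⟨γ j, hR j⟩, ?_⟩
  · exact sym_integral a e he c κ ε hκ x v hxa h i.succ 0 (u i) (by
      rw [hu]
      simp only [Units.val_mk0]
      rw [div_mul_cancel₀ _ (hxs 0)])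
  · have h7 : (fun (i : Fin r) (j : Fin n) => R j (sym (u i) v)) =
        fun i j => regInt (γ j (u i : K) : ℝ → ℂ) (γ j (v : K) : ℝ → ℂ) := by
      funext i j
      exact hR j (u i) v
    rw [h7, hd]
    exact hγ

end

end BPH
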